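import Pool.Agent.Helper9.BSDL2.Sharp2
import Pool.Agent.Helper99.CM.TpSharp
import Pool.Agent.Helper99.CM.Fam

set_option autoImplicit false

namespace Pool.Agent.Results.MP_4a9ea6_nt.SharpConstant

open Pool.Agent.Helper9.BSD Pool.Agent.Helper9.CN Pool.Agent.Helper99.CM Filter Topology
  MeasureTheory Set

/-- For every `lam > 1` the mean of `log (Q t / (log t)^m)` over `[x, lam x]` with respect to
`dt/t` tends to `log K`. -/
def MeanLim (Q : ℝ → ℝ) (m : ℕ) (K : ℝ) : Prop :=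
  ∀ lam : ℝ, 1 < lam → Tendsto (fun x : ℝ =>
    ∫ t in x..(lam * x), Real.log (Q t / (Real.log t) ^ m) / t) atTop
      (𝓝 (Real.log lam * Real.log K))

/-- `Q t / (log t)^m → K` outside a set of natural density zero: for all `ε > 0` and `lam > 1`, the
set of `t` in `(x, lam x]` with `|Q t / (log t)^m - K| > ε` has measure `o(x)`. -/
def DensLim (Q : ℝ → ℝ) (m : ℕ) (K : ℝ) : Prop :=
  ∀ ε : ℝ, 0 < ε → ∀ lam : ℝ, 1 < lam → Tendsto (fun x : ℝ =>
    (volume ({t : ℝ | ε < |Q t / (Real.log t) ^ m - K|} ∩ Ioc x (lam * x))).toReal / x)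
      atTop (𝓝 0)

/-- (1) `limsup Q / (log x)^m ≥ K`; (2) a bound `Q ≤ C (log x)^m` gives the mean limit `K`;
(3) if `limsup Q / (log x)^m ≤ K` then `Q / (log x)^m → K` outside a set of density zero. -/
def UpperForm (Q : ℝ → ℝ) (m : ℕ) (K : ℝ) : Prop :=
  (∀ C : ℝ, C < K → ∃ᶠ x : ℝ in atTop, C * (Real.log x) ^ m < Q x) ∧
  ((∃ C : ℝ, ∀ᶠ x : ℝ in atTop, Q x ≤ C * (Real.log x) ^ m) → MeanLim Q m K) ∧
  ((∀ C : ℝ, K < C → ∀ᶠ x : ℝ in atTop, Q x ≤ C * (Real.log x) ^ m) → DensLim Q m K)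

/-- (4) `K` is a limit point of `Q / (log x)^m`; (5) a bound `Q ≥ C (log x)^m`, `C > 0`, gives the
mean limit `K`; (6) if `liminf Q / (log x)^m ≥ K` then `Q / (log x)^m → K` outside a set of
density zero. -/
def LowerForm (Q : ℝ → ℝ) (m : ℕ) (K : ℝ) : Prop :=
  (∀ ε : ℝ, 0 < ε → ∃ᶠ x : ℝ in atTop, |Q x / (Real.log x) ^ m - K| < ε) ∧
  ((∃ C : ℝ, 0 < C ∧ ∀ᶠ x : ℝ in atTop, C * (Real.log x) ^ m ≤ Q x) → MeanLim Q m K) ∧
  ((∀ C : ℝ, C < K → ∀ᶠ x : ℝ in atTop, C * (Real.log x) ^ m ≤ Q x) → DensLim Q m K)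

/-- For every `k ≠ 0` the Euler products of the curves `y² = x³ - k x`, `y² = x³ + k`,
`y² = x³ + 6 k x² + k² x` and `y² = x³ + 6 k x² - 3 k² x` (up to isomorphism over the rationals, all
elliptic curves with `j = 1728, 0, 287496, 54000`) continue to entire functions, with a zero of some
finite order `m` at `s = 1`, and these curves satisfy `SqWin`: the sum of `a_p² / p²` over the good
primes in `(√x, x]` is `log 2 + O(1 / log x)`.  For the congruent number curves `y² = x³ - n² x`,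
`n = 1, 2`, `m = 0` and `F` has no zero on the positive real axis.

Let `W` be an integral Weierstrass equation with nonzero discriminant, let `F` be entire and
equal to the Euler product `LE W` for `Re s > 3/2`, let `m` be its order of vanishing and
`F^(m)(1) / m!` its leading Taylor coefficient at `s = 1`.  Put `K = e^(γ m) / |F^(m)(1) / m!|`,
and let `starProd W ⌊x⌋₊` be the inverse of the Euler product at `s = 1` truncated at prime
powers `≤ x`.  Then `starProd` satisfies (1), (2), (3) with the constant `K`, and also (4), (5),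
(6) if `F` has no zero in the real interval `(1, 3/2]`.

If `W` satisfies `SqWin`, the product of `N_p / p` over the good primes `p ≤ x` satisfies the same
with the constant `√2 K / badProd W`, where `badProd W` is the product of `1 - a_p / p` over the
primes dividing the discriminant. -/
theorem result :
    (∀ k : ℤ, k ≠ 0 → ∀ W : WeierstrassCurve ℤ,
      W = quar k ∨ W = sext k ∨ W = two (6 * k) (k ^ 2) ∨ W = two (6 * k) (-3 * k ^ 2) →
      W.Δ ≠ 0 ∧ SqWin W ∧ ∃ (F : ℂ → ℂ) (m : ℕ), IsCont W F m) ∧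
    (∀ W : WeierstrassCurve ℤ, W.Δ ≠ 0 → ∀ (F : ℂ → ℂ) (m : ℕ), IsCont W F m →
      ∀ K : ℝ, K = Real.exp (Real.eulerMascheroniConstant * m)
          / ‖iteratedDeriv m F 1 / (m.factorial : ℂ)‖ →
      UpperForm (fun x => starProd W ⌊x⌋₊) m K ∧
      ((∀ x : ℝ, 1 < x → x ≤ 3 / 2 → F x ≠ 0) → LowerForm (fun x => starProd W ⌊x⌋₊) m K)) ∧
    (∀ W : WeierstrassCurve ℤ, W.Δ ≠ 0 → SqWin W → ∀ (F : ℂ → ℂ) (m : ℕ), IsCont W F m →
      ∀ K : ℝ, K = √2 * Real.exp (Real.eulerMascheroniConstant * m)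
          / (‖iteratedDeriv m F 1 / (m.factorial : ℂ)‖ * badProd W) →
      UpperForm (fun x => bsdProd W ⌊x⌋₊) m K ∧
      ((∀ x : ℝ, 1 < x → x ≤ 3 / 2 → F x ≠ 0) → LowerForm (fun x => bsdProd W ⌊x⌋₊) m K)) ∧
    (∀ n : ℕ, n = 1 ∨ n = 2 → ∀ (F : ℂ → ℂ) (m : ℕ), IsCont (quar ((n : ℤ) ^ 2)) F m →
      m = 0 ∧ ∀ x : ℝ, 0 < x → F x ≠ 0) := by
  refine ⟨fun k hk W hW => ?_, ?_, ?_, ?_⟩
  · obtain ⟨hΔ, hS, F, m, h, -⟩ := cm_all hk hW
    exact ⟨hΔ, hS, F, m, h⟩
  · intro W hΔ F m hF K hK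
    exact ⟨Pool.Agent.Helper9.BSDL2.star_upperForm W hF hK, fun hZ =>
      Pool.Agent.Helper9.BSDL2.star_lowerForm W hΔ hF hK hZ⟩
  · intro W hΔ hS F m hF K hK
    exact ⟨true_upperForm_g W hΔ hS hF hK, fun hZ => true_lowerForm_g W hΔ hS hF hK hZ⟩
  · intro n hn F m hF
    exact Pool.Agent.Helper9.BSDL2.congr_real n hn F m hF

end Pool.Agent.Results.MP_4a9ea6_nt.SharpConstant
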